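import Mathlib
import Pool.Agent.Lib.helper13.Lam

set_option autoImplicit false

namespace Pool.Agent.Results.MP_edc851_co.Hstar

open Finset Classical Pointwise

/-- An arbor of size `n`: a rooted tree on `p` vertices, given by its parent map, whose vertices
are the blocks of a set partition of `Fin n`; `blk i` is the block containing `i`. -/
structure Arbor (n : ℕ) where
  p : ℕ
  blk : Fin n → Fin p
  blk_surj : Function.Surjective blk
  root : Fin p
  par : Fin p → Fin p
  par_root : par root = root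
  reach : ∀ v, ∃ k, par^[k] v = root

/-- The union of the block `v` with all its descendants. -/
noncomputable def Arbor.D {n : ℕ} (τ : Arbor n) (v : Fin τ.p) : Finset (Fin n) :=
  univ.filter fun i => ∃ k, τ.par^[k] (τ.blk i) = v

/-- The arbor polytope. -/
def Arbor.Q {n : ℕ} (τ : Arbor n) : Set (Fin n → ℝ) :=
  {x | (∀ i, 0 ≤ x i) ∧ ∀ v, ∑ i ∈ τ.D v, x i ≤ (τ.D v).card}

/-- The number of lattice points of the `m`-th dilate. -/
noncomputable def Arbor.ehr {n : ℕ} (τ : Arbor n) (m : ℕ) : ℕ :=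
  {x : Fin n → ℤ | (fun i => (x i : ℝ)) ∈ (m : ℝ) • τ.Q}.ncard

/-- The words of the arbor. -/
noncomputable def Arbor.W {n : ℕ} (τ : Arbor n) : Finset (Fin n → Fin n) :=
  univ.filter fun w => ∀ v, (τ.D v).card ≤ (univ.filter fun j => w j ∈ τ.D v).card

/-- The number of descents of a word of length `k + 1`. -/
def des {k : ℕ} (w : Fin (k + 1) → Fin (k + 1)) : ℕ :=
  (univ.filter fun i : Fin k => w i.succ < w i.castSucc).card

theorem sorted {α γ : Type} [DecidableEq α] [LinearOrder γ] (κ : α → γ)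
    (hκ : Function.Injective κ) (n : ℕ) (s : Finset α) (Φ : Finset α → Prop) [DecidablePred Φ]
    (P : (Fin n → α) → Prop) [DecidablePred P]
    (hP : ∀ f, P f ↔ StrictMono (κ ∘ f) ∧ Φ (univ.image f)) :
    ((Fintype.piFinset fun _ : Fin n => s).filter P).card = ((s.powersetCard n).filter Φ).card := by
  let : LinearOrder α := LinearOrder.lift' κ hκ
  replace hP : ∀ f, P f ↔ StrictMono f ∧ Φ (univ.image f) := hP
  refine card_bij (fun f _ => univ.image f) (fun f hf => ?_) (fun f hf g hg h => ?_) fun T hT => ?_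
  · simp only [mem_filter, Fintype.mem_piFinset, mem_powersetCard, hP] at hf ⊢
    exact ⟨⟨image_subset_iff.2 fun i _ => hf.1 i,
      by rw [card_image_of_injective _ hf.2.1.injective]; simp⟩, hf.2.2⟩
  · rw [← ((hP _).1 (mem_filter.1 hf).2).1.range_inj ((hP _).1 (mem_filter.1 hg).2).1,
      ← Set.image_univ, ← Set.image_univ, ← coe_univ, ← coe_image, ← coe_image, h]
  · simp only [mem_filter, mem_powersetCard] at hT
    have e : univ.image (T.orderEmbOfFin hT.1.2) = T := by
      rw [← coe_inj, coe_image, coe_univ, Set.image_univ, range_orderEmbOfFin]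
    refine ⟨T.orderEmbOfFin hT.1.2, ?_, e⟩
    simp only [mem_filter, Fintype.mem_piFinset, hP, e]
    exact ⟨fun i => hT.1.1 (orderEmbOfFin_mem _ _ _), (T.orderEmbOfFin hT.1.2).strictMono, hT.2⟩

theorem slots {k : ℕ} (m : ℕ) (w : Fin (k + 1) → Fin (k + 1)) :
    ((Fintype.piFinset fun _ : Fin (k + 1) => range (m + 1)).filter fun a => ∀ i : Fin k,
      a i.castSucc < a i.succ ∨ a i.castSucc = a i.succ ∧ w i.succ < w i.castSucc).card =
    (m + 1 + des w).choose (k + 1) := by
  let d : Fin (k + 1) → ℕ := fun j =>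
    (univ.filter fun i : Fin k => (i : ℕ) < j ∧ w i.succ < w i.castSucc).card
  have d0 : d 0 = 0 := by simp [d]
  have dl : d (Fin.last k) = des w := by simp [d, des]
  have ds : ∀ i : Fin k, d i.succ = d i.castSucc + if w i.succ < w i.castSucc then 1 else 0 := by
    intro i
    simp only [d, card_filter]
    rw [← Fintype.sum_ite_eq' i fun i => if w i.succ < w i.castSucc then 1 else 0,
      ← sum_add_distrib]
    refine sum_congr rfl fun j _ => ?_
    simp only [Fin.val_succ, Fin.val_castSucc, Fin.ext_iff]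
    by_cases h : w j.succ < w j.castSucc <;> simp only [h, and_true, and_false, if_true, if_false] <;>
    split_ifs <;> omega
  have dm : ∀ j, d j ≤ des w := fun j => dl ▸ Fin.monotone_iff_le_succ.2
    (fun i => by rw [ds]; omega) (Fin.le_last j)
  have h := sorted id Function.injective_id (k + 1) (range (m + 1 + des w)) (fun _ => True)
    StrictMono fun _ => by simp
  rw [filter_true, card_powersetCard, card_range] at h
  rw [← h]
  have hb : ∀ b : Fin (k + 1) → ℕ, StrictMono b → ∀ j, d j ≤ b j := fun b hb j => by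
    induction j using Fin.induction with
    | zero => omega
    | succ i ih =>
      have := hb (Fin.castSucc_lt_succ (i := i))
      rw [ds]
      split_ifs <;> omega
  refine card_nbij' (fun a j => a j + d j) (fun b j => b j - d j) (fun a ha => ?_) (fun b hb' => ?_)
    (fun a _ => by ext j; simp) fun b hb' => ?_
  · simp only [coe_filter, Fintype.mem_piFinset, mem_range, Set.mem_ofPred_eq] at ha ⊢
    refine ⟨fun j => by have := ha.1 j; have := dm j; omega, Fin.strictMono_iff_lt_succ.2 fun i => ?_⟩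
    have := ha.2 i
    rw [ds]
    split_ifs with h <;> simp only [h, and_true, and_false, or_false] at this <;> omega
  · simp only [coe_filter, Fintype.mem_piFinset, mem_range, Set.mem_ofPred_eq] at hb' ⊢
    have key : ∀ i : Fin k, b i.castSucc - d i.castSucc < b i.succ - d i.succ ∨
        b i.castSucc - d i.castSucc = b i.succ - d i.succ ∧ w i.succ < w i.castSucc := fun i => by
      have := hb'.2 (Fin.castSucc_lt_succ (i := i))
      have := hb b hb'.2 i.castSucc
      rw [ds]
      split_ifs with h <;> simp only [h, and_true, and_false, or_false] <;> omega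
    refine ⟨fun j => ?_, key⟩
    have h1 : b j - d j ≤ b (Fin.last k) - d (Fin.last k) :=
      (Fin.monotone_iff_le_succ (f := fun j => b j - d j)).2 (fun i => (key i).elim le_of_lt fun h => h.1.le) (Fin.le_last j)
    have := hb'.1 (Fin.last k)
    rw [dl] at h1
    omega
  · ext j
    exact Nat.sub_add_cancel (hb b (mem_filter.1 hb').2 j)

theorem words {k : ℕ} (m : ℕ) (F : Finset (Finset (Fin (k + 1)))) :
    ∑ w ∈ univ.filter (fun w : Fin (k + 1) → Fin (k + 1) =>
      ∀ D ∈ F, D.card ≤ (univ.filter fun j => w j ∈ D).card), (m + 1 + des w).choose (k + 1) =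
    ((Fintype.piFinset fun _ : Fin (k + 1) => (range (m + 1)).powerset).filter
      fun S => (∀ D ∈ F, D.card ≤ ∑ i ∈ D, (S i).card) ∧ ∑ i, (S i).card = k + 1).card := by
  let κ : ℕ × Fin (k + 1) → ℕ ×ₗ (Fin (k + 1))ᵒᵈ := fun p => toLex (p.1, OrderDual.toDual p.2)
  have hκ : Function.Injective κ := fun _ _ h => h
  have h := sorted κ hκ (k + 1) (range (m + 1) ×ˢ univ)
    (fun T => ∀ D ∈ F, D.card ≤ (T.filter fun p => p.2 ∈ D).card)
    (fun f => (∀ i : Fin k, (f i.castSucc).1 < (f i.succ).1 ∨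
      (f i.castSucc).1 = (f i.succ).1 ∧ (f i.succ).2 < (f i.castSucc).2) ∧
      ∀ D ∈ F, D.card ≤ (univ.filter fun j => (f j).2 ∈ D).card) fun f => by
    have e : StrictMono (κ ∘ f) ↔ _ := Fin.strictMono_iff_lt_succ.trans
      (forall_congr' fun i => Prod.Lex.toLex_lt_toLex)
    refine (and_congr_left' e.symm).trans (and_congr_right fun hf => forall₂_congr fun D _ => ?_)
    rw [filter_image, card_image_of_injective _ hf.injective.of_comp]
  refine Eq.trans ?_ (h.trans ?_)
  · simp only [← slots]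
    rw [← card_sigma]
    refine card_nbij' (fun x j => (x.2 j, x.1 j))
      (fun f => ⟨fun j => (f j).2, fun j => (f j).1⟩) (fun x hx => ?_)
      (fun f hf => ?_) (fun _ _ => rfl) fun _ _ => rfl
    · simp only [mem_coe, mem_sigma, mem_filter, mem_univ, true_and, Fintype.mem_piFinset,
        mem_product, and_true] at hx ⊢
      tauto
    · simp only [mem_coe, mem_sigma, mem_filter, mem_univ, true_and, Fintype.mem_piFinset,
        mem_product, and_true] at hf ⊢
      tauto
  · have hc : ∀ (T : Finset (ℕ × Fin (k + 1))) (D : Finset (Fin (k + 1))),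
        ∑ i ∈ D, ((T.filter fun p => p.2 = i).image Prod.fst).card =
          (T.filter fun p => p.2 ∈ D).card := fun T D => by
      rw [← sum_card_fiberwise_eq_card_filter]
      refine sum_congr rfl fun i _ => card_image_of_injOn fun p hp q hq h => Prod.ext h ?_
      rw [(mem_filter.1 hp).2, (mem_filter.1 hq).2]
    have hi : ∀ S ∈ Fintype.piFinset fun _ : Fin (k + 1) => (range (m + 1)).powerset, ∀ i,
        ((((range (m + 1) ×ˢ univ).filter fun p : ℕ × Fin (k + 1) => p.1 ∈ S p.2).filter
          fun p => p.2 = i).image Prod.fst) = S i := fun S hS i => by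
      have := mem_powerset.1 (Fintype.mem_piFinset.1 hS i)
      ext a
      simp only [mem_image, mem_filter, mem_product, mem_univ, and_true]
      exact ⟨by rintro ⟨p, ⟨⟨-, h⟩, rfl⟩, rfl⟩; exact h, fun h => ⟨(a, i), ⟨⟨this h, h⟩, rfl⟩, rfl⟩⟩
    refine card_nbij' (fun (T : Finset (ℕ × Fin (k + 1))) i =>
      (T.filter fun p => p.2 = i).image Prod.fst)
      (fun S => (range (m + 1) ×ˢ univ).filter fun p : ℕ × Fin (k + 1) => p.1 ∈ S p.2)
      (fun T hT => ?_) (fun S hS => ?_) (fun T hT => ?_)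
      fun S hS => funext (hi S (mem_filter.1 hS).1)
    · simp only [mem_coe, mem_filter, mem_powersetCard, Fintype.mem_piFinset, hc, mem_univ,
        filter_true, mem_powerset] at hT ⊢
      exact ⟨fun i => image_subset_iff.2 fun p hp => (mem_product.1 (hT.1.1 (mem_filter.1 hp).1)).1,
        hT.2, hT.1.2⟩
    · obtain ⟨h1, h2, h3⟩ := mem_filter.1 hS
      refine mem_filter.2 ⟨mem_powersetCard.2 ⟨filter_subset _ _, ?_⟩, fun D hD => ?_⟩
      · have := hc ((range (m + 1) ×ˢ univ).filter fun p => p.1 ∈ S p.2) univ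
        simp only [hi S h1, mem_univ, filter_true, h3] at this
        exact this.symm
      · rw [← hc]
        simp only [hi S h1]
        exact h2 D hD
    · have hT := (mem_powersetCard.1 (mem_filter.1 hT).1).1
      ext p
      simp only [mem_filter, mem_image]
      exact ⟨by rintro ⟨-, q, ⟨h1, h2⟩, h3⟩; rwa [← (Prod.ext h3 h2 : q = p)],
        fun h => ⟨hT h, p, ⟨h, rfl⟩, rfl⟩⟩

theorem D_root {n : ℕ} (τ : Arbor n) : τ.D τ.root = univ :=
  filter_true_of_mem fun _ _ => τ.reach _

theorem laminar {n : ℕ} (τ : Arbor n) (u v : Fin τ.p) :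
    τ.D u ⊆ τ.D v ∨ τ.D v ⊆ τ.D u ∨ Disjoint (τ.D u) (τ.D v) := by
  have key : ∀ u v l, τ.par^[l] u = v → τ.D u ⊆ τ.D v := fun u v l h i hi => by
    obtain ⟨k, hk⟩ := (mem_filter.1 hi).2
    exact mem_filter.2 ⟨mem_univ _, l + k, by rw [Function.iterate_add_apply, hk, h]⟩
  rw [← or_assoc, or_iff_not_imp_right, not_disjoint_iff]
  rintro ⟨i, hu, hv⟩
  obtain ⟨k, hk⟩ := (mem_filter.1 hu).2
  obtain ⟨l, hl⟩ := (mem_filter.1 hv).2
  rcases le_total k l with h | h <;> obtain ⟨c, rfl⟩ := Nat.exists_eq_add_of_le' h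
  · exact .inl (key _ _ c (by rw [← hk, ← Function.iterate_add_apply, hl]))
  · exact .inr (key _ _ c (by rw [← hl, ← Function.iterate_add_apply, hk]))

theorem mem_smul {n : ℕ} (τ : Arbor n) (m : ℕ) (y : Fin n → ℝ) : y ∈ (m : ℝ) • τ.Q ↔
    (∀ i, 0 ≤ y i) ∧ ∀ v, ∑ i ∈ τ.D v, y i ≤ m * (τ.D v).card := by
  constructor
  · rintro ⟨x, hx, rfl⟩
    refine ⟨fun i => mul_nonneg (Nat.cast_nonneg m) (hx.1 i), fun v => ?_⟩
    simp only [Pi.smul_apply, smul_eq_mul, ← mul_sum]
    exact mul_le_mul_of_nonneg_left (hx.2 v) (Nat.cast_nonneg m)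
  · rintro ⟨h1, h2⟩
    rcases Nat.eq_zero_or_pos m with rfl | hm
    · refine ⟨0, ⟨fun _ => le_rfl, fun v => by simp⟩, funext fun i => ?_⟩
      have h3 := h2 τ.root
      have h4 := single_le_sum (fun i _ => h1 i) (mem_univ i)
      rw [D_root] at h3
      have := h1 i
      simp at h3 ⊢
      linarith
    · have hm' : (0 : ℝ) < m := by exact_mod_cast hm
      refine ⟨(m : ℝ)⁻¹ • y, ⟨fun i => mul_nonneg (inv_nonneg.2 hm'.le) (h1 i), fun v => ?_⟩,
        smul_inv_smul₀ hm'.ne' y⟩
      simp only [Pi.smul_apply, smul_eq_mul, ← mul_sum]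
      exact (inv_mul_le_iff₀ hm').2 (h2 v)

theorem ehr_eq {k : ℕ} (τ : Arbor (k + 1)) (m : ℕ) :
    τ.ehr m = ∑ w ∈ τ.W, (m + 1 + des w).choose (k + 1) := by
  have h := (H13Lam.count m (univ.image τ.D) (mem_image.2 ⟨_, mem_univ _, D_root τ⟩)
    (by simpa using laminar τ)).trans (words m _).symm
  simp only [forall_mem_image, mem_univ, forall_const] at h
  rw [Arbor.W, ← h, Arbor.ehr, ← Set.ncard_coe_finset, ← Set.ncard_image_of_injective _
    (f := fun (x : Fin (k + 1) → ℕ) i => (x i : ℤ)) fun x y h => funext fun i =>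
      Nat.cast_injective (congrFun h i)]
  congr 1
  ext x
  simp only [mem_smul, Set.mem_ofPred_eq, Set.mem_image, mem_coe, mem_filter, Fintype.mem_piFinset,
    mem_range]
  constructor
  · rintro ⟨h1, h2⟩
    lift x to Fin (k + 1) → ℕ using fun i => by exact_mod_cast h1 i
    have h3 : ∀ v, ∑ i ∈ τ.D v, x i ≤ m * (τ.D v).card := fun v => by exact_mod_cast h2 v
    refine ⟨x, ⟨fun i => ?_, @h3⟩, rfl⟩
    have h4 := h3 τ.root
    have h5 := single_le_sum (fun i _ => Nat.zero_le (x i)) (mem_univ i)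
    rw [D_root, card_univ, Fintype.card_fin] at h4
    omega
  · rintro ⟨x, ⟨-, h⟩, rfl⟩
    exact ⟨fun i => by positivity, fun v => by exact_mod_cast @h v⟩

theorem result (k : ℕ) (τ : Arbor (k + 1)) :
    (PowerSeries.mk fun m => (τ.ehr m : ℤ)) * (1 - PowerSeries.X) ^ (k + 1 + 1) =
      ∑ w ∈ τ.W, PowerSeries.X ^ (k - des w) := by
  have e : (PowerSeries.mk fun m => (τ.ehr m : ℤ)) = ∑ w ∈ τ.W, PowerSeries.X ^ (k - des w) *
      PowerSeries.mk fun m => ((k + 1 + m).choose (k + 1) : ℤ) := by
    ext m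
    rw [PowerSeries.coeff_mk, ehr_eq, map_sum, Nat.cast_sum]
    refine sum_congr rfl fun w _ => ?_
    have : des w ≤ k := (card_filter_le _ _).trans (by simp)
    rw [PowerSeries.coeff_X_pow_mul', PowerSeries.coeff_mk]
    split_ifs
    · congr 2; omega
    · rw [Nat.choose_eq_zero_of_lt (by omega), Nat.cast_zero]
  rw [e, sum_mul]
  refine sum_congr rfl fun w _ => ?_
  rw [mul_assoc, PowerSeries.mk_add_choose_mul_one_sub_pow_eq_one, mul_one]

end Pool.Agent.Results.MP_edc851_co.Hstar
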